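import Pool.Agent.W544.KF.Defs2

set_option autoImplicit false
set_option maxHeartbeats 4000000

/-! Project KF, part KF-TT (owner helper544): facts on the scalar trace. -/

open CategoryTheory MonoidalCategory

namespace Pool.Agent.W431.KF

open Pool.Agent.W544.KF

universe v u

section

variable {D : Type u} [Category.{v} D] [MonoidalCategory D] [SymmetricCategory D]

theorem TT_comm (X Y : D) [ExactPairing X Y] (f g : X ⟶ X) :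
    TT X Y (f ≫ g) = TT X Y (g ≫ f) := by
  let _ : HasRightDual X := ⟨Y⟩
  have h1 : η_ X Y ≫ f ▷ Y = η_ X Y ≫ X ◁ (fᘁ : Y ⟶ Y) :=
    (coevaluation_comp_rightAdjointMate f).symm
  have h2 : (fᘁ : Y ⟶ Y) ▷ X ≫ ε_ X Y = Y ◁ f ≫ ε_ X Y :=
    rightAdjointMate_comp_evaluation f
  have h3 : X ◁ (fᘁ : Y ⟶ Y) ≫ (β_ X Y).hom = (β_ X Y).hom ≫ (fᘁ : Y ⟶ Y) ▷ X :=
    BraidedCategory.braiding_naturality_right X (fᘁ : Y ⟶ Y)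
  have h4 : f ▷ Y ≫ (β_ X Y).hom = (β_ X Y).hom ≫ Y ◁ f :=
    BraidedCategory.braiding_naturality_left f Y
  have h5 : X ◁ (fᘁ : Y ⟶ Y) ≫ g ▷ Y = g ▷ Y ≫ X ◁ (fᘁ : Y ⟶ Y) :=
    (whisker_exchange g (fᘁ : Y ⟶ Y))
  calc TT X Y (f ≫ g) = (η_ X Y ≫ f ▷ Y) ≫ g ▷ Y ≫ (β_ X Y).hom ≫ ε_ X Y := by
        unfold TT; simp [comp_whiskerRight]
    _ = η_ X Y ≫ (X ◁ (fᘁ : Y ⟶ Y) ≫ g ▷ Y) ≫ (β_ X Y).hom ≫ ε_ X Y := by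
        rw [h1]; simp only [Category.assoc]
    _ = η_ X Y ≫ g ▷ Y ≫ (X ◁ (fᘁ : Y ⟶ Y) ≫ (β_ X Y).hom) ≫ ε_ X Y := by
        rw [h5]; simp only [Category.assoc]
    _ = η_ X Y ≫ g ▷ Y ≫ (β_ X Y).hom ≫ (fᘁ : Y ⟶ Y) ▷ X ≫ ε_ X Y := by
        rw [h3]; simp only [Category.assoc]
    _ = η_ X Y ≫ g ▷ Y ≫ ((β_ X Y).hom ≫ Y ◁ f) ≫ ε_ X Y := by
        rw [h2]; simp only [Category.assoc]
    _ = η_ X Y ≫ g ▷ Y ≫ (f ▷ Y ≫ (β_ X Y).hom) ≫ ε_ X Y := by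
        rw [h4]
    _ = TT X Y (g ≫ f) := by
        unfold TT; simp [comp_whiskerRight]

theorem ptr_whisker (X Y : D) [ExactPairing X Y] (A : D) (f : X ⟶ X) :
    ptr (A := A) (B := A) X Y (A ◁ f) = (ρ_ A).inv ≫ A ◁ TT X Y f ≫ (ρ_ A).hom := by
  unfold ptr TT
  monoidal

theorem slideL (A A' Y : D) (c : A ⊗ A' ⟶ 𝟙_ D) :
    A ◁ (β_ Y A').hom ≫ (α_ A A' Y).inv ≫ c ▷ Y ≫ (λ_ Y).hom =
      (α_ A Y A').inv ≫ (β_ A Y).hom ▷ A' ≫ (α_ Y A A').hom ≫ Y ◁ c ≫ (ρ_ Y).hom := by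
  have nat := BraidedCategory.braiding_naturality_left c Y
  rw [BraidedCategory.braiding_tensor_left_hom, braiding_tensorUnit_left] at nat
  have h := congrArg (fun t => t ≫ (ρ_ Y).hom) nat
  simp only [Category.assoc, Iso.inv_hom_id, Category.comp_id] at h
  rw [h]
  simp only [Iso.inv_hom_id_assoc]
  rw [← MonoidalCategory.whiskerLeft_comp_assoc]
  simp

theorem slideR (A' X Y : D) (e : Y ⊗ X ⟶ 𝟙_ D) :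
    e ▷ A' ≫ (λ_ A').hom ≫ (ρ_ A').inv =
      (α_ Y X A').hom ≫ Y ◁ (β_ X A').hom ≫ (α_ Y A' X).inv ≫ (β_ Y A').hom ▷ X ≫
        (α_ A' Y X).hom ≫ A' ◁ e := by
  have nat := BraidedCategory.braiding_naturality_left e A'
  rw [BraidedCategory.braiding_tensor_left_hom, braiding_tensorUnit_left] at nat
  rw [nat]
  simp only [Category.assoc]

theorem key (X Y A A' : D) [ExactPairing X Y] [ExactPairing A A'] :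
    (β_ (A ⊗ X) (Y ⊗ A')).hom ≫ ε_ (A ⊗ X) (Y ⊗ A') =
      𝟙 _ ⊗≫ (A ◁ ((β_ X Y).hom ≫ ε_ X Y)) ▷ A' ⊗≫ ((β_ A A').hom ≫ ε_ A A') := by
  symm
  calc 𝟙 _ ⊗≫ (A ◁ ((β_ X Y).hom ≫ ε_ X Y)) ▷ A' ⊗≫ ((β_ A A').hom ≫ ε_ A A')
      = 𝟙 _ ⊗≫ (A ◁ (β_ X Y).hom) ▷ A' ⊗≫
          A ◁ (ε_ X Y ▷ A' ≫ (λ_ A').hom ≫ (ρ_ A').inv) ⊗≫ ((β_ A A').hom ≫ ε_ A A') := by
        monoidal
    _ = 𝟙 _ ⊗≫ (A ◁ (β_ X Y).hom) ▷ A' ⊗≫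
          A ◁ ((α_ Y X A').hom ≫ Y ◁ (β_ X A').hom ≫ (α_ Y A' X).inv ≫ (β_ Y A').hom ▷ X ≫
        (α_ A' Y X).hom ≫ A' ◁ ε_ X Y) ⊗≫ ((β_ A A').hom ≫ ε_ A A') := by
        rw [slideR]
    _ = 𝟙 _ ⊗≫ (A ◁ (β_ X Y).hom) ▷ A' ⊗≫ A ◁ Y ◁ (β_ X A').hom ⊗≫
          (A ◁ (β_ Y A').hom) ▷ X ⊗≫
          ((A ⊗ A') ◁ ε_ X Y ≫ ((β_ A A').hom ≫ ε_ A A') ▷ 𝟙_ D) ⊗≫ 𝟙 _ := by
        monoidal
    _ = 𝟙 _ ⊗≫ (A ◁ (β_ X Y).hom) ▷ A' ⊗≫ A ◁ Y ◁ (β_ X A').hom ⊗≫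
          (A ◁ (β_ Y A').hom) ▷ X ⊗≫
          (((β_ A A').hom ≫ ε_ A A') ▷ (Y ⊗ X) ≫ 𝟙_ D ◁ ε_ X Y) ⊗≫ 𝟙 _ := by
        rw [whisker_exchange]
    _ = 𝟙 _ ⊗≫ (A ◁ (β_ X Y).hom) ▷ A' ⊗≫ A ◁ Y ◁ (β_ X A').hom ⊗≫
          (A ◁ (β_ Y A').hom ≫ (α_ A A' Y).inv ≫ ((β_ A A').hom ≫ ε_ A A') ▷ Y ≫
            (λ_ Y).hom) ▷ X ⊗≫ ε_ X Y := by
        monoidal
    _ = 𝟙 _ ⊗≫ (A ◁ (β_ X Y).hom) ▷ A' ⊗≫ A ◁ Y ◁ (β_ X A').hom ⊗≫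
          ((α_ A Y A').inv ≫ (β_ A Y).hom ▷ A' ≫ (α_ Y A A').hom ≫
            Y ◁ ((β_ A A').hom ≫ ε_ A A') ≫ (ρ_ Y).hom) ▷ X ⊗≫ ε_ X Y := by
        rw [slideL]
    _ = (β_ (A ⊗ X) (Y ⊗ A')).hom ≫ ε_ (A ⊗ X) (Y ⊗ A') := by
        rw [ExactPairing.tensor_evaluation, BraidedCategory.braiding_tensor_left_hom,
          BraidedCategory.braiding_tensor_right_hom, BraidedCategory.braiding_tensor_right_hom]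
        monoidal

theorem TT_tensor (X Y : D) [ExactPairing X Y] (A A' : D) [ExactPairing A A']
    (G : A ⊗ X ⟶ A ⊗ X) : TT (A ⊗ X) (Y ⊗ A') G = TT A A' (ptr X Y G) := by
  unfold TT
  rw [key, ExactPairing.tensor_coevaluation]
  unfold ptr
  monoidal

end

theorem tt : S_TT.{v, u} := by
  intro D _ _ _ X Y _
  exact ⟨fun f g => TT_comm X Y f g, fun A f => ptr_whisker X Y A f,
    fun A A' _ G => TT_tensor X Y A A' G⟩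

end Pool.Agent.W431.KF
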